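import Mathlib

namespace Pool.Agent.Results.MP_ad1e8a_co.Disproof

open Matrix

/-- Coloured permutations `(χ, ψ)`; positions and letters are `0, …, n - 1`. -/
abbrev S (m n : ℕ) := (Fin n → ZMod m) × Equiv.Perm (Fin n)

/-- `y` is obtained from `x` by reversing the positions `0, …, k` and adding `ε` to their colours
(this is the reversal `r_{k+1}^ε`). -/
def IsRev {m n : ℕ} (k : Fin n) (ε : ZMod m) (x y : S m n) : Prop :=
  ∀ t : Fin n,
    (t ≤ k → y.2 t = x.2 ⟨k - t, by omega⟩ ∧ y.1 t = x.1 ⟨k - t, by omega⟩ + ε) ∧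
    (k < t → y.2 t = x.2 t ∧ y.1 t = x.1 t)

instance {m n : ℕ} (k : Fin n) (ε : ZMod m) (x y : S m n) : Decidable (IsRev k ε x y) := by
  unfold IsRev; infer_instance

/-- The generalised pancake graph `P_m(n)`. -/
def pancake (m n : ℕ) : SimpleGraph (S m n) :=
  SimpleGraph.fromRel fun x y => ∃ k : Fin n, IsRev k 1 x y ∨ IsRev k (-1) x y

instance (m n : ℕ) [NeZero m] : DecidableRel (pancake m n).Adj := fun x y => by
  unfold pancake; rw [SimpleGraph.fromRel_adj]; infer_instance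

/-- The part `V_{i,j}`: the first letter sits at position `j` with colour `i`. -/
def InPart {m n : ℕ} (a : ZMod m × Fin n) (x : S m n) : Prop := (x.2 a.2).val = 0 ∧ x.1 a.2 = a.1

instance {m n : ℕ} (a : ZMod m × Fin n) (x : S m n) : Decidable (InPart a x) := by
  unfold InPart; infer_instance

/-- `Q` is the quotient matrix: each `u ∈ V_a` has exactly `Q a b` neighbours in `V_b`. -/
def IsQuotient (m n : ℕ) [NeZero m] (Q : Matrix (ZMod m × Fin n) (ZMod m × Fin n) ℝ) : Prop :=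
  ∀ a b u, InPart a u →
    Q a b = ((Finset.univ.filter fun v => InPart b v ∧ (pancake m n).Adj u v).card : ℝ)

/-- The eigenvalue `λ_{k+1}` of a real symmetric matrix (nonincreasing order, with multiplicity). -/
noncomputable def lam {ι : Type} [Fintype ι] [DecidableEq ι] {A : Matrix ι ι ℝ}
    (hA : A.IsHermitian) (k : ℕ) : ℝ :=
  if h : k < Fintype.card ι then hA.eigenvalues₀ ⟨k, h⟩ else 0

/-- The gap `λ_1 - λ_2`. -/
noncomputable def gap {ι : Type} [Fintype ι] [DecidableEq ι] {A : Matrix ι ι ℝ}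
    (hA : A.IsHermitian) : ℝ := lam hA 0 - lam hA 1

lemma adj_herm (m n : ℕ) [NeZero m] : ((pancake m n).adjMatrix ℝ).IsHermitian :=
  Matrix.IsHermitian.ext fun i j => by simp [SimpleGraph.adj_comm]

section
variable {ι : Type} [Fintype ι] [DecidableEq ι] {A : Matrix ι ι ℝ} (hA : A.IsHermitian)

lemma eig_of_vec (v : ι → ℝ) (c : ℝ) (hv : v ≠ 0) (h : A *ᵥ v = c • v) :
    ∃ i, hA.eigenvalues₀ i = c := by
  have h1 : Module.End.HasEigenvalue (Matrix.toLin' A) c :=
    Module.End.hasEigenvalue_of_hasEigenvector (x := v)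
      ⟨Module.End.mem_eigenspace_iff.2 (by simpa using h), hv⟩
  have h2 := h1.mem_spectrum
  rw [Matrix.spectrum_toLin', hA.spectrum_real_eq_range_eigenvalues] at h2
  obtain ⟨i, hi⟩ := h2
  exact ⟨_, hi⟩

lemma eig_le (d : ℝ) (h0 : ∀ i j, 0 ≤ A i j) (hd : ∀ i, ∑ j, A i j = d) (i) :
    hA.eigenvalues₀ i ≤ d := by
  obtain ⟨j, rfl⟩ := (Fintype.equivOfCardEq (Fintype.card_fin _)).symm.surjective i
  have h1 := hA.eigenvalues_mem_spectrum_real j
  rw [← Matrix.spectrum_toLin', ← Module.End.hasEigenvalue_iff_mem_spectrum] at h1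
  obtain ⟨k, hk⟩ := eigenvalue_mem_ball h1
  rw [Metric.mem_closedBall, Real.dist_eq] at hk
  have h2 : ∑ j ∈ Finset.univ.erase k, ‖A k j‖ = ∑ j ∈ Finset.univ.erase k, A k j :=
    Finset.sum_congr rfl fun j _ => Real.norm_of_nonneg (h0 k j)
  have h3 := Finset.add_sum_erase Finset.univ (fun j => A k j) (Finset.mem_univ k)
  have h4 := hd k
  have h5 := (abs_le.1 hk).2
  change hA.eigenvalues j ≤ d
  linarith

lemma trace_pow (k : ℕ) : (A ^ k).trace = ∑ i, hA.eigenvalues₀ i ^ k := by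
  have h1 : (A ^ k).trace = ∑ i, hA.eigenvalues i ^ k := by
    conv_lhs => rw [hA.spectral_theorem, ← map_pow, Unitary.conjStarAlgAut_apply,
      Matrix.trace_mul_cycle, Unitary.coe_star_mul_self, one_mul, Matrix.diagonal_pow,
      Matrix.trace_diagonal]
    simp
  rw [h1]
  exact Equiv.sum_comp (Fintype.equivOfCardEq (Fintype.card_fin _)).symm
    (fun i => hA.eigenvalues₀ i ^ k)

end

def t0 : List ℤ := [0, 0, 0, 2, 1, 1, 1, 0, 0, 0, 0, 0, 0, 0, 0, 0, 0, 0, 0, 0, 1, 1, 1, 0]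
def t1 : List ℤ := [4, 2, 2, 6, 0, 2, 2, 0, 2, 1, 1, 1, 0, 0, 0, 0, 2, 1, 1, 1, 0, 2, 2, 0]
def t2 : List ℤ := [38, 26, 26, 52, 12, 26, 26, 12, 29, 19, 19, 22, 8, 12, 12, 8, 29, 19, 19, 22, 12, 26, 26, 12]
def t3 : List ℤ := [6372, 5718, 5718, 6918, 4868, 5662, 5662, 4924, 6030, 5333, 5333, 5757, 4600, 5060, 5060, 4488, 6030, 5333, 5333, 5757, 4868, 5662, 5662, 4924]
def t4 : List ℤ := [361176422, 358582250, 358582250, 362075908, 355333356, 358305890, 358305890, 355609716, 360477005, 357579787, 357579787, 360027262, 354686504, 357130044, 357130044, 354133784, 360477005, 357579787, 357579787, 360027262, 355333356, 358305890, 358305890, 355609716]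

def mk (t : List ℤ) : Matrix (ZMod 6 × Fin 2) (ZMod 6 × Fin 2) ℤ :=
  Matrix.of fun a b => t.getD (4 * (b.1 - a.1).val + 2 * a.2.val + b.2.val) 0

lemma sq0 : mk t0 * mk t0 = mk t1 := by decide +kernel
lemma sq1 : mk t1 * mk t1 = mk t2 := by decide +kernel
lemma sq2 : mk t2 * mk t2 = mk t3 := by decide +kernel
lemma sq3 : mk t3 * mk t3 = mk t4 := by decide +kernel
lemma tr4 : (mk t4 * mk t4).trace < 4 ^ 32 + 3 ^ 32 := by decide +kernel

lemma tr32 : (mk t0 ^ 32).trace < 4 ^ 32 + 3 ^ 32 := by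
  have : mk t0 ^ 32 = mk t4 * mk t4 := by
    rw [← sq3, ← sq2, ← sq1, ← sq0]
    simp only [← pow_two, ← pow_mul]
    norm_num
  rw [this]; exact tr4

noncomputable def Q6 : Matrix (ZMod 6 × Fin 2) (ZMod 6 × Fin 2) ℝ :=
  (Int.castRingHom ℝ).mapMatrix (mk t0)

lemma Q6_herm : Q6.IsHermitian := by
  have : ∀ a b, mk t0 a b = mk t0 b a := by decide +kernel
  exact Matrix.IsHermitian.ext fun i j => by simp [Q6, this i j]

lemma Q6_quot : IsQuotient 6 2 Q6 := by
  have : ∀ a u, InPart a u → ∀ b, mk t0 a b =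
      ((Finset.univ.filter fun v => InPart b v ∧ (pancake 6 2).Adj u v).card : ℤ) := by
    decide +kernel
  intro a b u hu
  simp [Q6, this a u hu b]

lemma gapQ : 1 < gap Q6_herm := by
  have hc : Fintype.card (ZMod 6 × Fin 2) = 12 := by simp
  have h0 : 0 < Fintype.card (ZMod 6 × Fin 2) := by omega
  have h1 : 1 < Fintype.card (ZMod 6 × Fin 2) := by omega
  obtain ⟨i, hi⟩ := eig_of_vec Q6_herm (fun _ => 1) 4 (fun h => by simpa using congrFun h (0, 0)) (by
    have : ∀ a, ∑ b, mk t0 a b = 4 := by decide +kernel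
    ext a
    have := congrArg (Int.cast : ℤ → ℝ) (this a)
    simpa [Q6, Matrix.mulVec, dotProduct] using this)
  have a0 : 4 ≤ Q6_herm.eigenvalues₀ ⟨0, h0⟩ := hi ▸ Q6_herm.eigenvalues₀_antitone (Nat.zero_le _)
  have a1 : Q6_herm.eigenvalues₀ ⟨1, h1⟩ < 3 := by
    by_contra hn
    have hn' := not_lt.1 hn
    have e := trace_pow Q6_herm 32
    have e2 : (Q6 ^ 32).trace < 4 ^ 32 + 3 ^ 32 := by
      have : (Q6 ^ 32).trace = (((mk t0 ^ 32).trace : ℤ) : ℝ) := by
        rw [Q6, ← map_pow]; simp [Matrix.trace]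
      rw [this]; exact_mod_cast tr32
    have e3 : ∑ i ∈ {(⟨0, h0⟩ : Fin _), ⟨1, h1⟩}, Q6_herm.eigenvalues₀ i ^ 32 ≤
        ∑ i, Q6_herm.eigenvalues₀ i ^ 32 :=
      Finset.sum_le_sum_of_subset_of_nonneg (Finset.subset_univ _) fun i _ _ =>
        Even.pow_nonneg (by decide) _
    rw [Finset.sum_pair (by simp)] at e3
    have b0 := pow_le_pow_left₀ (by norm_num) a0 32
    have b1 := pow_le_pow_left₀ (by norm_num) hn' 32
    linarith
  simp only [gap, lam, dif_pos h0, dif_pos h1]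
  linarith

def g (x : S 6 2) : ℤ := [2, 1, -1, -2, -1, 1].getD (x.1 0 - x.1 1).val 0

lemma gapP : gap (adj_herm 6 2) ≤ 1 := by
  have hc : Fintype.card (S 6 2) = 72 := by simp [Fintype.card_perm]
  have h0 : 0 < Fintype.card (S 6 2) := by omega
  have h1 : 1 < Fintype.card (S 6 2) := by omega
  have hdeg : ∀ u : S 6 2, ∑ v, (if (pancake 6 2).Adj u v then (1 : ℤ) else 0) = 4 := by
    decide +kernel
  have hg : ∀ u : S 6 2, ∑ v, (if (pancake 6 2).Adj u v then g v else 0) = 3 * g u := by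
    decide +kernel
  have hdeg' : ∀ u : S 6 2, ∑ v, (pancake 6 2).adjMatrix ℝ u v = 4 := fun u => by
    have := congrArg (Int.cast : ℤ → ℝ) (hdeg u)
    push_cast at this
    simpa only [SimpleGraph.adjMatrix_apply] using this
  obtain ⟨i, hi⟩ := eig_of_vec (adj_herm 6 2) (fun _ => 1) 4
    (fun h => by simpa using congrFun h (0, 1)) (by
      ext u
      simpa only [Matrix.mulVec, dotProduct, mul_one, Pi.smul_apply, smul_eq_mul] using hdeg' u)
  obtain ⟨j, hj⟩ := eig_of_vec (adj_herm 6 2) (fun v => (g v : ℝ)) 3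
    (fun h => by simpa [g] using congrFun h (0, 1)) (by
      ext u
      have := congrArg (Int.cast : ℤ → ℝ) (hg u)
      push_cast at this
      simpa only [Matrix.mulVec, dotProduct, SimpleGraph.adjMatrix_apply, ite_mul, one_mul,
        zero_mul, Pi.smul_apply, smul_eq_mul] using this)
  have a0 := eig_le (adj_herm 6 2) 4
    (fun i j => by rw [SimpleGraph.adjMatrix_apply]; split_ifs <;> norm_num) hdeg' ⟨0, h0⟩
  have a1 : 3 ≤ (adj_herm 6 2).eigenvalues₀ ⟨1, h1⟩ := by
    by_cases h : 1 ≤ j.val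
    · exact hj ▸ (adj_herm 6 2).eigenvalues₀_antitone h
    · have hij : i ≠ j := fun e => by rw [e, hj] at hi; norm_num at hi
      have : 1 ≤ i.val := by
        by_contra h'
        exact hij (Fin.ext (by omega))
      have := (adj_herm 6 2).eigenvalues₀_antitone (show (⟨1, h1⟩ : Fin _) ≤ i from this)
      linarith
  simp only [gap, lam, dif_pos h0, dif_pos h1]
  linarith

/-- For `m = 6`, `n = 2` the gap of the graph is smaller than the gap of the quotient matrix, so
the conjectured equality fails. -/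
theorem result :
    (∃ (Q : Matrix (ZMod 6 × Fin 2) (ZMod 6 × Fin 2) ℝ) (hQ : Q.IsHermitian),
      IsQuotient 6 2 Q ∧ gap (adj_herm 6 2) < gap hQ) ∧
    ¬ ∀ (m n : ℕ) [NeZero m], 2 ≤ m → 2 ≤ n →
      ∀ (Q : Matrix (ZMod m × Fin n) (ZMod m × Fin n) ℝ) (hQ : Q.IsHermitian),
        IsQuotient m n Q → gap (adj_herm m n) = gap hQ := by
  refine ⟨⟨Q6, Q6_herm, Q6_quot, gapP.trans_lt gapQ⟩, fun h => ?_⟩
  exact absurd (h 6 2 (by norm_num) le_rfl Q6 Q6_herm Q6_quot) (gapP.trans_lt gapQ).ne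

end Pool.Agent.Results.MP_ad1e8a_co.Disproof
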